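import Pool.Agent.BEG.Stmts

/-!
# Squad BER (MP_be01ff_an): the final state theorem with resonances of high order. Definitions.

Functions of `(ψ, τ, L)`, `ψ = ω t`, `τ = 1/t`, `L = log t`: polynomials in `τ` and `L` with
trigonometric polynomials in `ψ` as coefficients.
-/

namespace Pool.Agent.BER

open Set Filter Topology MeasureTheory
open scoped InnerProductSpace ENNReal
open Pool.Agent.BE01 Pool.Agent.BEL Pool.Agent.BEF Pool.Agent.BEN Pool.Agent.BEH Pool.Agent.BEG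

noncomputable section

/-- `cos (j ψ)` for `s = false`, `sin (j ψ)` for `s = true`. -/
def tg (s : Bool) (j : ℕ) (ψ : ℝ) : ℝ := bif s then Real.sin (j * ψ) else Real.cos (j * ψ)

section cls

variable (M : Type) [NormedAddCommGroup M] [NormedSpace ℝ M]

/-- Functions of `(ψ, L)`: polynomials in `L`, the coefficients are trigonometric polynomials with
odd frequencies `≤ J`. -/
def TL (J : ℕ) : Submodule ℝ (ℝ → ℝ → M) :=
  Submodule.span ℝ {P | ∃ (b j : ℕ) (s : Bool) (x : M), Odd j ∧ j ≤ J ∧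
    P = fun ψ L => (L ^ b * tg s j ψ) • x}

/-- Functions of `(ψ, τ, L)`: divisible by `τ ^ N`, frequencies of the parity of `e`. -/
def LP (N e : ℕ) : Submodule ℝ (ℝ → ℝ → ℝ → M) :=
  Submodule.span ℝ {P | ∃ (k b j : ℕ) (s : Bool) (x : M), N ≤ k ∧ j % 2 = e % 2 ∧
    P = fun ψ τ L => (τ ^ k * L ^ b * tg s j ψ) • x}

variable {M}

/-- The derivatives of a function of `(ψ, L)`. -/
def d1 (V : ℝ → ℝ → M) (ψ L : ℝ) : M := deriv (fun s => V s L) ψ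
/-- The derivative with respect to `L`. -/
def d2 (V : ℝ → ℝ → M) (ψ L : ℝ) : M := deriv (fun s => V ψ s) L

/-- The derivatives of a function of `(ψ, τ, L)`. -/
def q1 (P : ℝ → ℝ → ℝ → M) (ψ τ L : ℝ) : M := deriv (fun s => P s τ L) ψ
/-- The derivative with respect to `τ`. -/
def q2 (P : ℝ → ℝ → ℝ → M) (ψ τ L : ℝ) : M := deriv (fun s => P ψ s L) τ
/-- The derivative with respect to `L`. -/
def q3 (P : ℝ → ℝ → ℝ → M) (ψ τ L : ℝ) : M := deriv (fun s => P ψ τ s) L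

/-- The operator `D`: the derivative of `t^(-1/(2p)) P(ω t, 1/t, log t)` is
`t^(-1/(2p)) (D P)(ω t, 1/t, log t)`. -/
def Dt (p : ℕ) (ω : ℝ) (P : ℝ → ℝ → ℝ → M) (ψ τ L : ℝ) : M :=
  ω • q1 P ψ τ L + τ • (q3 P ψ τ L - (1 / (2 * (p : ℝ))) • P ψ τ L - τ • q2 P ψ τ L)

end cls

section apx

variable {X H : Type} [NormedCommRing X] [NormedAlgebra ℝ X] [NormedAddCommGroup H]
  [InnerProductSpace ℝ H]

/-- The eigenvectors `φ n i`, `i < m n`, for the frequencies `n ω`, `n` odd (`m n = 0` for `n` even),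
and the solvability of `q - n² ω² S q = F` for `F` orthogonal to the `φ n i`. -/
structure Fam (W : Wx X H) (ω : ℝ) (m : ℕ → ℕ) (φ : ∀ n : ℕ, Fin (m n) → X) : Prop where
  evn : ∀ n, ¬ Odd n → m n = 0
  on : ∀ n, Orthonormal ℝ (fun i => W.e (φ n i))
  ev : ∀ (n : ℕ) (i : Fin (m n)), ((n : ℝ) ^ 2 * ω ^ 2) • W.SX (φ n i) = φ n i
  sv : ∀ n, Odd n → ∀ F : X, (∀ i, ⟪W.e F, W.e (φ n i)⟫_ℝ = 0) →
    ∃ q : X, q - ((n : ℝ) ^ 2 * ω ^ 2) • W.SX q = F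

/-- Arbitrarily large gaps of length `2p` in the set of the resonances. -/
def Gap (m : ℕ → ℕ) (p : ℕ) : Prop := ∀ J : ℕ, ∃ M, J ≤ M ∧ ∀ n, M < n → n ≤ M + 2 * p → m n = 0

/-- `φ` is an eigenvector, a critical point of `⟪φ^(2p+1), φ⟫` on the unit sphere of the eigenspace,
and `φ^(2p+1)` is orthogonal to the eigenvectors for `n = 3, 5, …, 2p+1`. -/
structure Cri (W : Wx X H) (p : ℕ) (ω : ℝ) (m : ℕ → ℕ) (φ : ∀ n : ℕ, Fin (m n) → X) (χ : X) :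
    Prop where
  nrm : ‖W.e χ‖ = 1
  ev : (ω ^ 2) • W.SX χ = χ
  pos : 0 < ⟪W.e (χ ^ (2 * p + 1)), W.e χ⟫_ℝ
  one : ∀ i, ⟪W.e (χ ^ (2 * p + 1)), W.e (φ 1 i)⟫_ℝ =
    ⟪W.e (χ ^ (2 * p + 1)), W.e χ⟫_ℝ * ⟪W.e χ, W.e (φ 1 i)⟫_ℝ
  oth : ∀ n, 3 ≤ n → n ≤ 2 * p + 1 → ∀ i, ⟪W.e (χ ^ (2 * p + 1)), W.e (φ n i)⟫_ℝ = 0

/-- Multiplication is symmetric. -/
def Msy (W : Wx X H) : Prop := ∀ x y z : X, ⟪W.e (x * y), W.e z⟫_ℝ = ⟪W.e y, W.e (x * z)⟫_ℝ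

/-- The residual of `u = t^(-1/(2p)) U(ω t, 1/t, log t)`, `U = S q`, divided by `t^(-1/(2p))`. -/
def Rs (p : ℕ) (a0 ω : ℝ) (U q : ℝ → ℝ → ℝ → X) (ψ τ L : ℝ) : X :=
  Dt p ω (Dt p ω U) ψ τ L + q ψ τ L + (a0 * τ) • (Dt p ω U ψ τ L) ^ (2 * p + 1)

/-- An approximate solution of order `N`, with the leading part `ρ cos ψ χ`. -/
structure Apr (W : Wx X H) (p : ℕ) (a0 ω ρ : ℝ) (χ : X) (N : ℕ) (U q : ℝ → ℝ → ℝ → X) :
    Prop where
  eq : ∀ ψ τ L, U ψ τ L = W.SX (q ψ τ L)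
  lead : ∃ q' ∈ LP X 1 1, ∀ ψ τ L, q ψ τ L = (ω ^ 2 * ρ * Real.cos ψ) • χ + q' ψ τ L
  res : Rs p a0 ω U q ∈ LP X (N + 1) 1

end apx

end

end Pool.Agent.BER
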