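import Pool.Agent.BER.Defs

/-!
# Squad BER (MP_be01ff_an): the final state theorem with resonances of high order. Statements.

THEOREM `F_R` (`d ≥ 2`, `α = 2p`, `K` as in squad BEG).  If `l` has an eigenfunction in `K`, if `n² l`
has no eigenfunction in `K` for `n = 3, 5, …, 2p+1`, and if there are arbitrarily large `M` such that
`n² l` has no eigenfunction in `K` for odd `M < n ≤ M + 2p`, then there is a solution with the sharp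
rate.  (Squads BEN, BEG: the same with only finitely many resonances.)

PLAN.  `u = t^(-1/(2p)) U(ω t, 1/t, log t)`, `U = ρ cos ψ χ + τ (…) + …` polynomial in `τ = 1/t` and
`L = log t` with odd trigonometric polynomials in `ψ` as coefficients, `χ` a maximum of `∫ χ^(2p+2)` on
the unit sphere of the eigenspace in `K`.  At the order `τ^(N+1)` one has to solve, for given `F`,
`2ω d1 (d2 V - c V) + κ0 (sin ψ χ')^(2p) d1 V + (ω² S d1 d1 + 1) q + F = 0`, `c = N + 1/(2p)`, `V` a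
resonant wave, `q` arbitrary.  The projection on the resonant waves (a finite-dimensional space
because of the gap) is an ordinary differential equation in `L` with constant coefficients and a
polynomial right-hand side: it has a polynomial solution (row ODP).  So there are approximate
solutions of every order, and the rows TMN, JST, SOL, FNE of BEN give the solution.
-/

namespace Pool.Agent.BER

open Set Filter Topology MeasureTheory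
open scoped InnerProductSpace ENNReal
open Pool.Agent.BE01 Pool.Agent.BEL Pool.Agent.BEF Pool.Agent.BEN Pool.Agent.BEH Pool.Agent.BEG

noncomputable section

/-! ## Part 1: the classes of functions -/

/-- LPM: products and leading coefficients.  All by `Submodule.span_induction` from the generators
(`span_mono` for the inclusions).  Products: `τ^k L^b τ^k' L^b' = τ^(k+k') L^(b+b')` and
`cos i cos j = (cos (i+j) + cos |i-j|)/2` etc. (`i + j` and `|i - j|` have the same parity; for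
`sin i cos j` the sign of `i - j`).  Powers: induction (`P^0 = 1` is a generator with `k = b = j = 0`).
Leading coefficient: for a generator with `k = N` take `P' = 0`, for `k > N` take `Q = 0`; sums: the
larger `J`. -/
def LpmStmt : Prop :=
  (∀ (M : Type) [NormedAddCommGroup M] [NormedSpace ℝ M],
    (∀ N N' e e' : ℕ, N ≤ N' → e % 2 = e' % 2 → LP M N' e ≤ LP M N e') ∧
    (∀ (N k e : ℕ), ∀ P ∈ LP M N e, (fun ψ τ L => τ ^ k • P ψ τ L) ∈ LP M (N + k) e) ∧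
    (∀ (J k : ℕ), ∀ V ∈ TL M J, (fun ψ τ L => τ ^ k • V ψ L) ∈ LP M k 1) ∧
    (∀ N : ℕ, ∀ P ∈ LP M N 1, ∃ J : ℕ, ∃ Q ∈ TL M J, ∃ P' ∈ LP M (N + 1) 1,
      ∀ ψ τ L, P ψ τ L = τ ^ N • Q ψ L + P' ψ τ L) ∧
    (∀ J J' : ℕ, J ≤ J' → TL M J ≤ TL M J')) ∧
  ∀ (X : Type) [NormedCommRing X] [NormedAlgebra ℝ X],
    (∀ N N' e e' : ℕ, ∀ P ∈ LP X N e, ∀ Q ∈ LP X N' e',
      (fun ψ τ L => P ψ τ L * Q ψ τ L) ∈ LP X (N + N') (e + e')) ∧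
    (∀ N e n : ℕ, ∀ P ∈ LP X N e, (fun ψ τ L => P ψ τ L ^ n) ∈ LP X (n * N) (n * e))

/-- LPD: derivatives.  The generators are smooth in each variable; `q1, q2, q3` of a generator are
multiples of generators (`τ q2` of a generator is `k` times it), and they are additive on sums of
differentiable functions; by span induction every element of `LP`, `TL` is differentiable in each
variable (prove this first).  For `τ^k V`: `τ q2 (τ^k V) = k τ^k V`. -/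
def LpdStmt : Prop := ∀ (M M' : Type) [NormedAddCommGroup M] [NormedSpace ℝ M]
  [NormedAddCommGroup M'] [NormedSpace ℝ M'] (p : ℕ) (ω : ℝ),
  (∀ N e : ℕ, ∀ P ∈ LP M N e, Dt p ω P ∈ LP M N e) ∧
  (∀ e : ℕ, ∀ P ∈ LP M 0 e, ∀ Q ∈ LP M 0 e, Dt p ω (fun ψ τ L => P ψ τ L + Q ψ τ L) =
    fun ψ τ L => Dt p ω P ψ τ L + Dt p ω Q ψ τ L) ∧
  (∀ (T : M →L[ℝ] M') (N e : ℕ), ∀ P ∈ LP M N e, (fun ψ τ L => T (P ψ τ L)) ∈ LP M' N e ∧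
    Dt p ω (fun ψ τ L => T (P ψ τ L)) = fun ψ τ L => T (Dt p ω P ψ τ L)) ∧
  (∀ J : ℕ, ∀ V ∈ TL M J, d1 V ∈ TL M J ∧ d2 V ∈ TL M J ∧ d1 (d2 V) = d2 (d1 V) ∧
    (∀ T : M →L[ℝ] M', (fun ψ L => T (V ψ L)) ∈ TL M' J ∧
      d1 (fun ψ L => T (V ψ L)) = (fun ψ L => T (d1 V ψ L)) ∧
      d2 (fun ψ L => T (V ψ L)) = fun ψ L => T (d2 V ψ L)) ∧
    ∀ k : ℕ, Dt p ω (fun ψ τ L => τ ^ k • V ψ L) = fun ψ τ L => τ ^ k • (ω • d1 V ψ L) +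
      τ ^ (k + 1) • (d2 V ψ L - ((k : ℝ) + 1 / (2 * (p : ℝ))) • V ψ L)) ∧
  (∀ J : ℕ, ∀ V ∈ TL M J, ∀ V' ∈ TL M J, d1 (fun ψ L => V ψ L + V' ψ L) =
    (fun ψ L => d1 V ψ L + d1 V' ψ L) ∧
    d2 (fun ψ L => V ψ L + V' ψ L) = fun ψ L => d2 V ψ L + d2 V' ψ L)

/-- LPC: the chain rule.  By span induction; for a generator:
`(t^(-1/(2p)) t^(-k) (log t)^b tg s j (ω t))'`, `(1/t)' = - (1/t)²`, `(log t)' = 1/t`,
`(t^(-1/(2p)))' = - (1/(2p)) t^(-1/(2p)) (1/t)`. -/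
def LpcStmt : Prop := ∀ (M : Type) [NormedAddCommGroup M] [NormedSpace ℝ M] (p N e : ℕ) (ω : ℝ),
  1 ≤ p → ∀ P ∈ LP M N e, ∀ t : ℝ, 0 < t →
  HasDerivAt (fun r : ℝ => r ^ (-(1 / (2 * (p : ℝ)))) • P (ω * r) (1 / r) (Real.log r))
    (t ^ (-(1 / (2 * (p : ℝ)))) • Dt p ω P (ω * t) (1 / t) (Real.log t)) t

/-- LPB: bounds.  For a generator: `(1/t)^k ≤ (1/t)^N = t^(-N)` for `t ≥ 1`, `k ≥ N`, and
`(log t)^b ≤ C t^(1/2)` (`Real.log_le_rpow_div`, or `Real.log t ≤ b' t^(1/b')` with `b' = 2b+2`).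
Continuity: the generators are continuous. -/
def LpbStmt : Prop := ∀ (M : Type) [NormedAddCommGroup M] [NormedSpace ℝ M] (N e : ℕ),
  ∀ P ∈ LP M N e, (∃ C : ℝ, 0 ≤ C ∧ ∀ ψ t : ℝ, 1 ≤ t →
    ‖P ψ (1 / t) (Real.log t)‖ ≤ C * t ^ ((1 / 2 : ℝ) - N)) ∧
  Continuous fun z : ℝ × ℝ × ℝ => P z.1 z.2.1 z.2.2

/-! ## Part 2: the linear equation for trigonometric polynomials -/

/-- FRP: representation of the elements of `TL` (span induction; for the sum of two take the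
larger `B`). -/
def FrpStmt : Prop := ∀ (M : Type) [NormedAddCommGroup M] [NormedSpace ℝ M] (J : ℕ),
  ∀ F ∈ TL M J, ∃ (B : ℕ) (x y : ℕ → ℕ → M), (∀ b j, ¬ (Odd j ∧ j ≤ J) → x b j = 0 ∧ y b j = 0) ∧
    ∀ ψ L, F ψ L = ∑ b ∈ Finset.range B, ∑ j ∈ Finset.range (J + 1),
      L ^ b • (Real.cos (j * ψ) • x b j + Real.sin (j * ψ) • y b j)

/-- TLM: multiplication by `sin^(2p)`.  `sin² ψ cos jψ = cos(jψ)/2 - cos((j+2)ψ)/4 - cos((j-2)ψ)/4`, the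
same for `sin jψ`; for `j = 1`: `cos(-ψ) = cos ψ`, `sin(-ψ) = - sin ψ`.  Induction on `p`. -/
def TlmStmt : Prop := ∀ (X : Type) [NormedCommRing X] [NormedAlgebra ℝ X],
  (∀ (J p : ℕ) (x : X), ∀ V ∈ TL X J, (fun ψ L => (Real.sin ψ • x) ^ (2 * p) * V ψ L) ∈
    TL X (J + 2 * p)) ∧
  (∀ (p : ℕ) (x : X), (fun ψ _ => (Real.sin ψ) ^ (2 * p + 1) • x : ℝ → ℝ → X) ∈
    TL X (2 * p + 1)) ∧
  (∀ x : X, (fun ψ _ => Real.sin ψ • x : ℝ → ℝ → X) ∈ TL X 1 ∧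
    (fun ψ _ => Real.cos ψ • x : ℝ → ℝ → X) ∈ TL X 1)

/-- SLV: solvability (uses FRP).  `F = Σ L^b (cos(jψ) x_bj + sin(jψ) y_bj)`; the integral is
`π Σ_b L^b ⟪e x_bn, e φ_ni⟫` (orthogonality of `cos jψ`, `sin jψ` on `(0, 2π)`), a polynomial in `L` which
vanishes identically: all coefficients vanish.  `Fam.sv`: `q - n² ω² SX q = - x_bn`, the same for
`y_bn`; `q = Σ L^b (cos(jψ) q_bj + sin(jψ) q'_bj)`, `d1 (d1 ·)` multiplies by `- j²`. -/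
def SlvStmt : Prop := ∀ (X H : Type) [NormedCommRing X] [NormedAlgebra ℝ X]
  [NormedAddCommGroup H] [InnerProductSpace ℝ H] (W : Wx X H) (ω : ℝ) (m : ℕ → ℕ)
  (φ : ∀ n : ℕ, Fin (m n) → X) (J : ℕ), Fam W ω m φ → ∀ F ∈ TL X J,
  (∀ n ≤ J, ∀ (i : Fin (m n)) (s : Bool) (L : ℝ),
    ∫ ψ in (0 : ℝ)..(2 * Real.pi), tg s n ψ * ⟪W.e (F ψ L), W.e (φ n i)⟫_ℝ = 0) →
  ∃ q ∈ TL X J, ∀ ψ L, (ω ^ 2) • W.SX (d1 (d1 q) ψ L) + q ψ L = - F ψ L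

/-- ODP: `y' + T y = f` with a polynomial `f` has a polynomial solution (coefficients of `L^b`).
Proof: let `f b = 0` for `b ≥ n`.  The recursion `y (b+1) = (f b - T (y b))/(b+1)` determines `y` from
`y 0 = v`; `y n = ((-T)^n v)/n! + g` with `g` independent of `v`, and `y (n+k) = (-T)^k (y n) n!/(n+k)!`.
For `r` large `E = ker T^r + range T^r` (`LinearMap.eventually_isCompl_ker_pow_range_pow`) and
`range T^r ⊂ range T^n`: choose `v` such that `y n ∈ ker T^r`; then `y b = 0` for `b ≥ n + r`. -/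
def OdpStmt : Prop := ∀ (E : Type) [AddCommGroup E] [Module ℝ E] [FiniteDimensional ℝ E]
  (T : E →ₗ[ℝ] E) (n : ℕ) (f : ℕ → E), (∀ b, n ≤ b → f b = 0) →
  ∃ (n' : ℕ) (y : ℕ → E), (∀ b, n' ≤ b → y b = 0) ∧
    ∀ b : ℕ, ((b : ℝ) + 1) • y (b + 1) + T (y b) = f b

/-- RSV: the resonant equation (uses FRP, TLM, SLV, ODP).  Proof: `ι` = the set of the `(n, i, s)`,
`n ≤ M`, `i < m n`, `s : Bool` (`Σ n : Fin (M+1), Fin (m n) × Bool`), `E = ι → ℝ`.  For `y ∈ E` let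
`Y_y(ψ) = Σ y_(n,i,s) tg s n ψ • φ n i`, and for `P : ℝ → X` let `co P (n,i,s) =
∫_0^(2π) tg s n ψ ⟪e (P ψ), e (φ n i)⟫ dψ`.  `co Y_y = π y` (orthonormality; `n ≥ 1` as `n` is odd).
`T y = (κ0/(2ωπ)) co ((sin ψ χ)^(2p) Y_y) - c y` (linear), `f_b = - co(F_b)/(2ωπ)`, `F = Σ L^b F_b` (FRP).
ODP gives `y_b`.  `V = Σ_b L^b Σ y_b(n,i,s) I_s(nψ)/n φ n i`, `I(cos) = sin`, `I(sin) = - cos`, so
`d1 V = Y := Σ L^b Y_(y_b)`.  `qV` = the same sum with the factors `n² ω²`: `SX qV = V` by `Fam.ev`, and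
`ω² d1 d1 V = - qV`.  The function `G = 2ω d1 d2 V - 2ωc d1 V + κ0 (sin ψ χ)^(2p) d1 V + F` is in
`TL X (M+2p)` (TLM); its coefficients `∫ tg s n ⟪e G, e φ_ni⟫` vanish: for `n ≤ M` by the equation for
`y`, for `M < n ≤ M + 2p` there is no `i`.  SLV gives `q`. -/
def RsvStmt : Prop := ∀ (X H : Type) [NormedCommRing X] [NormedAlgebra ℝ X]
  [NormedAddCommGroup H] [InnerProductSpace ℝ H] (W : Wx X H) (p : ℕ) (κ0 c ω : ℝ) (m : ℕ → ℕ)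
  (φ : ∀ n : ℕ, Fin (m n) → X) (χ : X) (J M : ℕ), 0 < ω → Fam W ω m φ → J ≤ M →
  (∀ n, M < n → n ≤ M + 2 * p → m n = 0) → ∀ F ∈ TL X J,
  ∃ V ∈ TL X M, ∃ qV ∈ TL X M, ∃ q ∈ TL X (M + 2 * p), (∀ ψ L, V ψ L = W.SX (qV ψ L)) ∧
    (∀ ψ L, (ω ^ 2) • d1 (d1 V) ψ L + qV ψ L = 0) ∧
    ∀ ψ L, (2 * ω) • d1 (d2 V) ψ L - (2 * ω * c) • d1 V ψ L +
      κ0 • ((Real.sin ψ • χ) ^ (2 * p) * d1 V ψ L) +
      (ω ^ 2) • W.SX (d1 (d1 q) ψ L) + q ψ L + F ψ L = 0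

/-! ## Part 3: the approximate solutions -/

/-- PER: perturbation of the residual (uses LPM, LPD).  `U' = U + τ^N V + τ^(N+1) Wf`.
`D (τ^N V) = τ^N ω d1 V + τ^(N+1) (d2 V - (N + 1/(2p)) V)`, so the coefficient of `τ^(N+1)` in
`D D (τ^N V)` is `2ω d1 d2 V - 2ω (N + 1/(2p)) d1 V`, that of `τ^N` is `ω² d1 d1 V`, and for `τ^(N+1) Wf`
the coefficient of `τ^(N+1)` is `ω² d1 d1 Wf`; the rest is in `LP (N+2)`.  With `B = D U`,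
`h = D (τ^N V + τ^(N+1) Wf)`: `(B + h)^(2p+1) - B^(2p+1) = (2p+1) B^(2p) h + h² (…)`
(`∃ polynomial`: `add_pow`, or `Commute.add_pow`/`sub_dvd_pow_sub_pow` twice).  If `N ≥ 1`: `τ h² (…)` is in
`LP (2N+1) ⊂ LP (N+2)`, `B = - (sin ψ • χ') + LP 1`, `B^(2p) = (sin ψ • χ')^(2p) + LP 1`.  If `V = 0`:
`h ∈ LP (N+1)` and `τ ((B+h)^(2p+1) - B^(2p+1)) ∈ LP (N+2)`. -/
def PerStmt : Prop := ∀ (X : Type) [NormedCommRing X] [NormedAlgebra ℝ X] (p N J : ℕ)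
  (a0 ω : ℝ) (χ' : X) (U q : ℝ → ℝ → ℝ → X) (V qV Wf qW : ℝ → ℝ → X), 1 ≤ p →
  (1 ≤ N ∨ V = fun _ _ => 0) → U ∈ LP X 0 1 → q ∈ LP X 0 1 →
  (∃ B' ∈ LP X 1 1, ∀ ψ τ L, Dt p ω U ψ τ L = - (Real.sin ψ • χ') + B' ψ τ L) →
  V ∈ TL X J → qV ∈ TL X J → Wf ∈ TL X J → qW ∈ TL X J →
  (fun ψ τ L => Rs p a0 ω (fun ψ τ L => U ψ τ L + τ ^ N • V ψ L + τ ^ (N + 1) • Wf ψ L)
      (fun ψ τ L => q ψ τ L + τ ^ N • qV ψ L + τ ^ (N + 1) • qW ψ L) ψ τ L -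
    Rs p a0 ω U q ψ τ L - τ ^ N • ((ω ^ 2) • d1 (d1 V) ψ L + qV ψ L) -
    τ ^ (N + 1) • ((2 * ω) • d1 (d2 V) ψ L - (2 * ω * ((N : ℝ) + 1 / (2 * (p : ℝ)))) • d1 V ψ L +
      (a0 * (2 * (p : ℝ) + 1) * ω) • ((Real.sin ψ • χ') ^ (2 * p) * d1 V ψ L) +
      (ω ^ 2) • d1 (d1 Wf) ψ L + qW ψ L)) ∈ LP X (N + 2) 1

/-- FST: the first approximation (uses LPM, LPD, TLM, SLV, PER).  `c_p = (1/π) ∫_0^(2π) sin^(2p+2) > 0`,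
`γ = ⟪e χ^(2p+1), e χ⟫ > 0`, `ρ > 0` with `(ωρ)^(2p) = 1/(p a0 c_p γ)`.  `U0 = ρ cos ψ χ`, `q0 = ω² U0`,
`U0 = SX q0`, `D U0 = - ωρ sin ψ χ - (τ/(2p)) U0`; `Rs U0 q0 = τ Q + LP 2`,
`Q = (ωρ/p) sin ψ χ - a0 (ωρ)^(2p+1) sin^(2p+1) ψ χ^(2p+1) ∈ TL X (2p+1)`.  `∫ tg s n ⟪e Q, e φ_ni⟫ = 0`:
for `s = false` all integrals vanish (odd in `ψ`); `n = 1`, `s = true`: `π ((ωρ/p) - a0 (ωρ)^(2p+1) c_p γ)
⟪e χ, e φ_1i⟫ = 0` by `Cri.one`; `3 ≤ n ≤ 2p+1`: `∫ sin(nψ) sin ψ = 0` and `Cri.oth`.  SLV: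
`ω² SX (d1 d1 q1) + q1 = - Q`; `Wf = SX q1`, PER with `N = 0`, `V = qV = 0`, `χ' = ωρ χ`:
`Rs U q = Rs U0 q0 + τ (- Q) + LP 2 = LP 2`. -/
def FstStmt : Prop := ∀ (X H : Type) [NormedCommRing X] [NormedAlgebra ℝ X]
  [NormedAddCommGroup H] [InnerProductSpace ℝ H] (W : Wx X H) (p : ℕ) (a0 ω : ℝ) (m : ℕ → ℕ)
  (φ : ∀ n : ℕ, Fin (m n) → X) (χ : X), 1 ≤ p → 0 < a0 → 0 < ω → Fam W ω m φ →
  Cri W p ω m φ χ → ∃ ρ : ℝ, 0 < ρ ∧ ∃ U q : ℝ → ℝ → ℝ → X, Apr W p a0 ω ρ χ 1 U q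

/-- STN: from one order to the next (uses LPM, LPD, RSV, PER).  `U = SX q ∈ LP 0`,
`U = ρ cos ψ χ + LP 1` (`ω² SX χ = χ`), `D U = - ωρ sin ψ χ + LP 1`.  `Rs U q = τ^(N+1) Q + LP (N+2)`,
`Q ∈ TL X J` (LPM); `M ≥ J` from `Gap`; RSV with `κ0 = a0 (2p+1) ω`, `c = N + 1/(2p)`, `χ' = (ωρ) χ`,
`F = Q`; `Wf = SX q1`, `qW = q1`; PER. -/
def StnStmt : Prop := ∀ (X H : Type) [NormedCommRing X] [NormedAlgebra ℝ X]
  [NormedAddCommGroup H] [InnerProductSpace ℝ H] (W : Wx X H) (p N : ℕ) (a0 ω ρ : ℝ) (m : ℕ → ℕ)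
  (φ : ∀ n : ℕ, Fin (m n) → X) (χ : X) (U q : ℝ → ℝ → ℝ → X), 1 ≤ p → 1 ≤ N → 0 < ω →
  Fam W ω m φ → Gap m p → (ω ^ 2) • W.SX χ = χ → Apr W p a0 ω ρ χ N U q →
  ∃ U' q' : ℝ → ℝ → ℝ → X, Apr W p a0 ω ρ χ (N + 1) U' q'

/-- TMR: the approximate solution as a function of time (uses LPM, LPD, LPC, LPB; compare ASN of
BEN, `Helper23_BEN/ASN.lean`).  `b = (max 1 ω)^(s+1) ρ ‖χ‖ + 1`; `N` so large that
`k = N + 1/2 + 1/(2p)` satisfies `2 < k` and `a0 κ b^(2p) < k - 1`; `U, q` of order `N`.  With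
`z t = (ω t, 1/t, log t)`: `w j t = t^(-1/(2p)) (D^(j+1) U)(z t)`, `g t = t^(-1/(2p)) q(z t)`,
`r j t = t^(-1/(2p)) (D^j Rs)(z t)`; derivatives by LPC (`D` maps `LP` to itself).  `D^(j+1) U =
ω^(j+1) ρ tr_(j+1)(ψ) χ + LP 1`, `tr` the derivatives of `cos`, by induction, so `‖w j t‖ ≤ b t^(-1/(2p))`
for `t > t1` (LPB: `LP 1` is `≤ C t^(-1/2)`); `‖r j t‖ ≤ N1 t^(-k)` by LPB (`LP (N+1)`).  `w 0 = SX y`,
`SX (g r)` has the derivative `w 0`: `U = SX q`, `D U = SX (D q)` (LPD).  The identity `res` is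
`t^(-1/(2p)) Rs` (`(t^(-1/(2p)))^(2p+1) = t^(-1/(2p)) (1/t)`).  Energy: `t^(1/(2p)) e (w 0) = - ωρ sin ψ e χ +
O(t^(-1/2))`, `t^(1/(2p)) R e g = ω² ρ cos ψ R e χ + O(t^(-1/2))`, `‖R e χ‖² = ⟪e χ, S e χ⟫ = ω^(-2)`
(`Prp.R_symm`, `RR`): the sum of the squares is `ω² ρ² + O(t^(-1/2))`; `c = ω² ρ²/2`, `C = 2 ω² ρ²`. -/
def TmrStmt : Prop := ∀ (X H : Type) [NormedCommRing X] [NormedAlgebra ℝ X]
  [NormedAddCommGroup H] [InnerProductSpace ℝ H] (W : Wx X H) (p s : ℕ) (a0 κ ω ρ : ℝ) (χ : X),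
  1 ≤ p → 0 < a0 → 0 ≤ κ → 0 < ω → 0 < ρ → ‖W.e χ‖ = 1 → (ω ^ 2) • W.SX χ = χ →
  (∀ N : ℕ, 1 ≤ N → ∃ U q : ℝ → ℝ → ℝ → X, Apr W p a0 ω ρ χ N U q) →
  ∃ (k t1 b N1 c C : ℝ) (w r : ℕ → ℝ → X) (g : ℝ → X), 2 < k ∧
    a0 * κ * b ^ (2 * p) < k - 1 ∧ Tmx W s p a0 k t1 b N1 c C w r g

/-! ## Part 4: the theorem -/

/-- FAM: the family of the eigenvectors (uses `SlkStmt` of BEG).  For odd `n` apply SLK with `n ω`
(`(nω)² = n² ω²`, `M = 0`) and choose; for even `n` `m n = 0`.  `Fam.sv` is `Slx.one`.  If `n² ω²` has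
no eigenvector in `K` then `m n = 0`: `W'.e (φ n i) ∈ K` (`Rsx.mem`) would be one, of norm 1.  If there
is one for `n = 1` then `m 1 ≥ 1` (it is in the span). -/
def FamStmt : Prop := ∀ (T : Type) [MeasurableSpace T] (μ : Measure T) [IsFiniteMeasure μ]
  (s : ℕ) (C0 ω : ℝ) (X X' : Type) [NormedCommRing X] [NormedAlgebra ℝ X] [NormedCommRing X']
  [NormedAlgebra ℝ X'] (W : Wx X (Lp ℝ 2 μ)) (W' : Wx X' (Lp ℝ 2 μ)) (i : X' →ₐ[ℝ] X)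
  (K : Submodule ℝ (Lp ℝ 2 μ)), 2 ≤ s → Xok W → Sbd W s C0 → IsCompactOperator W.S → 0 < ω →
  IsClosed (K : Set (Lp ℝ 2 μ)) → (∀ h ∈ K, W.S h ∈ K) → Rsx W W' i K →
  ∃ (m : ℕ → ℕ) (φ : ∀ n : ℕ, Fin (m n) → X'), Fam W' ω m φ ∧
    (∀ n : ℕ, Odd n → (∀ u ∈ K, u = ((n : ℝ) ^ 2 * ω ^ 2) • W.S u → u = 0) → m n = 0) ∧
    ((∃ u ∈ K, u ≠ 0 ∧ u = (ω ^ 2) • W.S u) → 1 ≤ m 1)

/-- CRI: the critical point (no hypotheses).  Proof: `x(z) = Σ z_i φ 1 i`, `z ∈ EuclideanSpace ℝ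
(Fin (m 1))`, `Φ(z) = ⟪e (x^(2p+1)), e x⟫`, continuous, positive for `z ≠ 0` (hypothesis; `x(z) ≠ 0` by
orthonormality); `z` a maximum on the unit sphere (compact, nonempty).  For a unit vector `y ⊥ z`:
`θ ↦ Φ(cos θ z + sin θ y)` has a maximum at `0`, its derivative there is `(2p+2) ⟪e (x^(2p+1)), e x(y)⟫`
by `Msy` (`x^(2p) x(y) x` …).  So `⟪e (x^(2p+1)), e x(y)⟫ = 0` for `y ⊥ z`, and `one` follows with
`y = e_i - z_i z`. -/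
def CriStmt : Prop := ∀ (X H : Type) [NormedCommRing X] [NormedAlgebra ℝ X]
  [NormedAddCommGroup H] [InnerProductSpace ℝ H] (W : Wx X H) (p : ℕ) (ω : ℝ) (m : ℕ → ℕ)
  (φ : ∀ n : ℕ, Fin (m n) → X), 1 ≤ p → Fam W ω m φ → Msy W →
  (∀ x : X, x ≠ 0 → 0 < ⟪W.e (x ^ (2 * p + 1)), W.e x⟫_ℝ) → 1 ≤ m 1 →
  (∀ n, 3 ≤ n → n ≤ 2 * p + 1 → m n = 0) → ∃ χ : X, Cri W p ω m φ χ

/-- MAR: the main theorem (uses FST, STN, TMR and TMN, JST, SOL, FNE of BEN, TXK of BEG; copy and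
edit the proof of MAK of BEG).  Proof: `V = |Ω|`, `V' = max 1 V`, `C1 = V' (2(1+C0))^(d+1)`,
`κ = 2(2p+1) C1 (2^d)^(2p) V'^(2p)`, `s = d`.  FST and STN (induction on `N`) for `W'`, TMR for `W'`,
TXK gives `Tmx W`; JST and SOL for `W`, `μ = mu Ω`; TMN for `W` gives `Slu W p a`, and FNE. -/
def MarStmt : Prop := ∀ (d : ℕ) (Ω : Set (En d)) (p : ℕ) (C0 : ℝ) (X X' : Type)
  [NormedCommRing X] [NormedAlgebra ℝ X] [NormedCommRing X'] [NormedAlgebra ℝ X']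
  (W : Wx X (Lp ℝ 2 (mu Ω))) (W' : Wx X' (Lp ℝ 2 (mu Ω))) (i : X' →ₐ[ℝ] X)
  (K : Submodule ℝ (Lp ℝ 2 (mu Ω))) (Z : Lp ℝ 2 (mu Ω) →L[ℝ] Lp (En d) 2 (mu Ω))
  (ω : ℝ) (m : ℕ → ℕ) (φ : ∀ n : ℕ, Fin (m n) → X') (χ : X'), 2 ≤ d → Dom Ω → 1 ≤ p → 0 < C0 →
  Xok W → Wok Ω W Z → Sbd W d C0 → Rsx W W' i K → 0 < ω → Fam W' ω m φ → Gap m p →
  Cri W' p ω m φ χ → ∀ a : ℝ, 0 < a → Rt Ω a ((2 * p : ℕ) : ℝ)

/-- FRK: THEOREM `F_R` for a subspace (uses WXC of BEN, SBK of BEG, FAM, CRI, MAR; compare FKN of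
BEG).  Proof: WXC with `Ω' = Ω`, SBK; `S h ∈ K` by `Kst.slv`; `l > 0`, `ω = √l`; FAM; `m n = 0` for
`3 ≤ n ≤ 2p+1` and `Gap` from the hypotheses (`Wok.eig`; even `n`: `Fam.evn`); `Msy W'` and the
positivity from `Xok.mul` (`⟪e (x y), e z⟫ = ∫ x y z`, `⟪e x^(2p+1), e x⟫ = ∫ x^(2p+2)`, through
`i`); CRI, MAR. -/
def FrkStmt : Prop := ∀ (d : ℕ) (Ω : Set (En d)) (K : Submodule ℝ (Lp ℝ 2 (mu Ω))) (p : ℕ)
  (l : ℝ) (φ : Lp ℝ 2 (mu Ω)), 2 ≤ d → Dom Ω → Kst Ω K → 1 ≤ p → φ ∈ K → φ ≠ 0 → IsEig Ω l φ →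
  (∀ n : ℕ, Odd n → 3 ≤ n → n ≤ 2 * p + 1 → ∀ u ∈ K, IsEig Ω ((n : ℝ) ^ 2 * l) u → u = 0) →
  (∀ J : ℕ, ∃ M, J ≤ M ∧ ∀ n : ℕ, Odd n → M < n → n ≤ M + 2 * p →
    ∀ u ∈ K, IsEig Ω ((n : ℝ) ^ 2 * l) u → u = 0) →
  ∀ a : ℝ, 0 < a → Rt Ω a ((2 * p : ℕ) : ℝ)

/-- FRG: THEOREM `F_R` for symmetries (uses KSY of BEG, FRK). -/
def FrgStmt : Prop := ∀ (d : ℕ) (Ω : Set (En d)) (G : Set ((En d ≃ₗᵢ[ℝ] En d) × En d)) (p : ℕ)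
  (a l : ℝ) (φ : Lp ℝ 2 (mu Ω)), 2 ≤ d → Dom Ω → Syms Ω G → 1 ≤ p → 0 < a → Inv Ω G φ → φ ≠ 0 →
  IsEig Ω l φ →
  (∀ n : ℕ, Odd n → 3 ≤ n → n ≤ 2 * p + 1 →
    ∀ u, Inv Ω G u → IsEig Ω ((n : ℝ) ^ 2 * l) u → u = 0) →
  (∀ J : ℕ, ∃ M, J ≤ M ∧ ∀ n : ℕ, Odd n → M < n → n ≤ M + 2 * p →
    ∀ u, Inv Ω G u → IsEig Ω ((n : ℝ) ^ 2 * l) u → u = 0) →
  Rt Ω a ((2 * p : ℕ) : ℝ)

end

end Pool.Agent.BER
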