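import Pool.Agent.BER.Stmts
import Pool.Agent.BES.Stmts

/-!
# Squad BER (MP_be01ff_an), part E: every ball and every spherical shell of `ℝ^d`, `d ≥ 2`, `d ≠ 3`.

THEOREM.  For `d ≥ 2`, `d ≠ 3`, every ball and every shell `a < |x| < b` of `ℝ^d` has, for every even
power `α = 2p`, a solution with the sharp rate (`d = 3` is known to the team).

PLAN.  Theorem `F_R` (part 4) for the functions invariant under all linear isometries, i.e. the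
radial ones.  Radial eigenfunctions `f(|x|)` with the eigenvalue `s²`: `y(x) = x^((d-1)/2) f(x/s)` solves
`y'' = (c/x² - 1) y`, `c = (d-1)(d-3)/4 ≠ 0`.  The large zeros of every solution satisfy
`x = β + kπ - c/(2x) + O(x^(-2))` (row YAS).  So: if `x` is a large zero then `n x` is not a zero for
`n = 3, 5, …, 2p+1` (row NRA), and for fixed `x` and large `n` at most one of `n x, (n+2) x, …,
(n+2p) x` is a zero (row GPA): there are gaps.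
-/

namespace Pool.Agent.BER

open Set Filter Topology MeasureTheory
open scoped InnerProductSpace ENNReal
open Pool.Agent.BE01 Pool.Agent.BEL Pool.Agent.BEF Pool.Agent.BEN Pool.Agent.BEH Pool.Agent.BEG
open Pool.Agent.BEO (Pl BB ev lap rho)

noncomputable section

/-- All linear isometries of `ℝ^d`. -/
def GO (d : ℕ) : Set ((En d ≃ₗᵢ[ℝ] En d) × En d) := {g | g.2 = 0}

/-- The shell `a < |y| < b`. -/
def Sh (d : ℕ) (a b : ℝ) : Set (En d) := {y | a < ‖y‖ ∧ ‖y‖ < b}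

/-- Coefficients of the regular radial solution of `Δ u + u = 0`. -/
def bd (d : ℕ) : ℕ → ℝ
  | 0 => 1
  | k + 1 => - bd d k / (2 * ((k : ℝ) + 1) * (2 * k + d))

/-- The regular radial solution of `Δ u + u = 0` is `jd d |x|`. -/
def jd (d : ℕ) (x : ℝ) : ℝ := ∑' k : ℕ, bd d k * x ^ (2 * k)

/-- `c = (d-1)(d-3)/4`. -/
def cd (d : ℕ) : ℝ := ((d : ℝ) - 1) * (d - 3) / 4

/-- `y` is a solution, not identically zero, of `y'' = (c/x² - 1) y` on `(0, ∞)`. -/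
def Bes (c : ℝ) (y y' : ℝ → ℝ) : Prop :=
  (∀ x, 0 < x → HasDerivAt y (y' x) x) ∧
  (∀ x, 0 < x → HasDerivAt y' ((c / x ^ 2 - 1) * y x) x) ∧ ∃ x, 0 < x ∧ y x ≠ 0

/-- The large elements of `Z` satisfy `x = β + kπ - c/(2x) + O(x^(-2))`. -/
def Zas (c β : ℝ) (Z : Set ℝ) : Prop := ∃ C X0 : ℝ, 0 < C ∧ 1 ≤ X0 ∧ ∀ x ∈ Z, X0 ≤ x →
  ∃ k : ℤ, |x - β - k * Real.pi + c / (2 * x)| ≤ C / x ^ 2

/-- `Δ (g(|y|²)) + l g(|y|²) = (Ld d l g)(|y|²)`. -/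
def Ld (d : ℕ) (l : ℝ) (g : ℝ → ℝ) (t : ℝ) : ℝ :=
  4 * t * deriv (deriv g) t + 2 * d * deriv g t + l * g t

/-! ## Part E1: ordinary differential equations and zeros -/

/-- YAS: asymptotics of the zeros, uniformly in the solution (no hypotheses).  Let
`a = y sin x + y' cos x`, `b = y cos x - y' sin x`: `y = a sin x + b cos x`, `a' = (c/x²) y cos x`,
`b' = - (c/x²) y sin x`, `E = a² + b² = y² + y'²`, `|E'| = 2 |c| |y y'|/x² ≤ (|c|/x²) E`, so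
`E(x) e^(± |c|/x)` are monotone, `E > 0`, `E` has a limit `E∞ > 0` at infinity; divide `y` by
`E∞^(1/2)`: `E∞ = 1`, `|y| ≤ e^(|c|/2)` for `x ≥ 1`.  `a, b` have limits `a∞, b∞` (`a', b'` are
`O(x^(-2))`), `|a - a∞|, |b - b∞| ≤ C1/x`; `a∞² + b∞² = 1`, `a∞ = cos β`, `b∞ = - sin β`.
`a(x) = a∞ - ∫_x^∞ (c/s²) y cos s ds` with `y = a∞ sin s + b∞ cos s + O(1/s)`, and `∫_x^∞ cos(2s)/s²`,
`∫_x^∞ sin(2s)/s²` are `O(x^(-2))` (by parts), so `a = a∞ - c b∞/(2x) + O(x^(-2))`,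
`b = b∞ + c a∞/(2x) + O(x^(-2))`, `y = sin(x-β) + (c/(2x)) cos(x-β) + O(x^(-2))`.  (To avoid improper
integrals: `A(x) = a - (c/(2x))·(…)` and its derivative.)  At a zero let `k` be the nearest integer,
`η = x - β - kπ ∈ [-π/2, π/2]`: `|sin η + (c/(2x)) cos η| ≤ C2/x²`, so `|sin η| ≤ C3/x`, `|η| ≤ C4/x`,
`|sin η - η| ≤ |η|³`, `|cos η - 1| ≤ η²`: `|η + c/(2x)| ≤ C5/x²`.  All constants depend on `c` only. -/
def YasStmt : Prop := ∀ c : ℝ, ∃ C X0 : ℝ, 0 < C ∧ 1 ≤ X0 ∧ ∀ y y' : ℝ → ℝ, Bes c y y' →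
  ∃ β : ℝ, ∀ x : ℝ, X0 ≤ x → y x = 0 →
    ∃ k : ℤ, |x - β - k * Real.pi + c / (2 * x)| ≤ C / x ^ 2

/-- NRA: no resonance with a fixed factor (no hypotheses).  `x = β + kπ - c/(2x) + e1`,
`n x = β + k'π - c/(2nx) + e2`: `(n-1) β + (nk - k') π = (n - 1/n) c/(2x) + O(x^(-2)) =: ε(x) → 0`.  If
`(n-1) β ∉ πℤ` the left-hand side is bounded away from `0`; if `(n-1) β ∈ πℤ` it is in `πℤ`, so it is `0`
for large `x`, but `|ε(x)| ≥ |c| (n - 1/n)/(2x) - C'/x² > 0` for large `x`. -/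
def NraStmt : Prop := ∀ (c β : ℝ) (Z : Set ℝ), c ≠ 0 → Zas c β Z → ∀ n : ℕ, 2 ≤ n →
  ∃ X1 : ℝ, ∀ x : ℝ, X1 ≤ x → ¬ (x ∈ Z ∧ (n : ℝ) * x ∈ Z)

/-- GPA: gaps (no hypotheses).  Fix `j`.  If `n x0 ∈ Z` and `(n+2j) x0 ∈ Z`, `n` large, then
`2 j x0 = (k' - k) π + O(n^(-2))` (`c/(2nx0) - c/(2(n+2j)x0) = O(n^(-2))`).  If `2 j x0 ∉ πℤ`: impossible
for large `n`.  If `2 j x0 = lπ`: `n x0 ∈ (π/(2j)) ℤ`, so `n x0 - β - kπ` is in the discrete set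
`(π/(2j)) ℤ - β` and is `O(1/n)`: for large `n` it is `0`, and then `|c|/(2 n x0) ≤ C/(n x0)²`:
impossible for large `n`. -/
def GpaStmt : Prop := ∀ (c β : ℝ) (Z : Set ℝ), c ≠ 0 → Zas c β Z → ∀ (x0 : ℝ) (p : ℕ), 0 < x0 →
  ∃ N : ℕ, ∀ n : ℕ, N ≤ n → ∀ j : ℕ, 1 ≤ j → j ≤ p →
    ¬ ((n : ℝ) * x0 ∈ Z ∧ ((n : ℝ) + 2 * j) * x0 ∈ Z)

/-- JSD: the function `jd` (no hypotheses; compare the rows JTA, JDE of squad BED, which are the case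
`d = 2`).  `|bd d k| ≤ 1/(4^k (k!)²)·…` (`(2k+d) ≥ 2(k+1)` for `d ≥ 2`), so the series converges
everywhere and can be differentiated; the equation follows from `2(k+1)(2k+d) bd (k+1) = - bd k`.
`y = x^((d-1)/2) jd d x`: `y'' = x^((d-1)/2) (f'' + (d-1) f'/x + c f/x²)`, `f = jd d`; `y ≠ 0` near `0`
(`jd d 0 = 1`, continuity). -/
def JsdStmt : Prop := ∀ d : ℕ, 2 ≤ d →
  (∀ x : ℝ, Summable fun k : ℕ => bd d k * x ^ (2 * k)) ∧ jd d 0 = 1 ∧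
  (∀ x, HasDerivAt (jd d) (deriv (jd d) x) x) ∧
  (∀ x, HasDerivAt (deriv (jd d)) (deriv (deriv (jd d)) x) x) ∧
  (∀ x, x * deriv (deriv (jd d)) x + ((d : ℝ) - 1) * deriv (jd d) x + x * jd d x = 0) ∧
  ∃ y' : ℝ → ℝ, Bes (cd d) (fun x => x ^ (((d : ℝ) - 1) / 2) * jd d x) y'

/-- LOD: linear equations of second order (no hypotheses).  Either: Picard iteration
`Y_0 = A + B (t - t0)`, `Y_(n+1)(t) = ∫_t0^t (t - s) p(s) Y_n(s) ds`, `|Y_n| ≤ C M^n |t - t0|^(2n)/(2n)!` on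
compact intervals, `y = Σ Y_n`.  Or: Picard-Lindelöf (`IsPicardLindelof` in the ball of radius `‖x0‖ + 1`,
steps of a length `≥ h(K)` independent of the initial value) and continuation.  Or: GLO of squad BEF
(global solutions for bounded Lipschitz vector fields, proved, table bef) with a truncation, Gronwall.
Smoothness: `y'' = p y`, induction on the order. -/
def LodStmt : Prop := ∀ (p : ℝ → ℝ) (t0 A B : ℝ), ContDiff ℝ ((⊤ : ℕ∞) : WithTop ℕ∞) p →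
  ∃ y : ℝ → ℝ, ContDiff ℝ ((⊤ : ℕ∞) : WithTop ℕ∞) y ∧
    (∀ t, HasDerivAt (deriv y) (p t * y t) t) ∧ y t0 = A ∧ deriv y t0 = B

/-- LOB: solutions of `y'' = (c/x² - 1) y` on `(0, ∞)` with given initial values (uses LOD).
`y(x) = x^(1/2) Y(log x)`, `Y'' = (c + 1/4 - e^(2t)) Y`: `y' = x^(-1/2) (Y/2 + Y')`,
`y'' = x^(-3/2) (Y'' - Y/4)`. -/
def LobStmt : Prop := ∀ c x0 A B : ℝ, 0 < x0 → ∃ y y' : ℝ → ℝ,
  ContDiffOn ℝ ((⊤ : ℕ∞) : WithTop ℕ∞) y (Ioi 0) ∧ (∀ x, 0 < x → HasDerivAt y (y' x) x) ∧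
  (∀ x, 0 < x → HasDerivAt y' ((c / x ^ 2 - 1) * y x) x) ∧ y x0 = A ∧ y' x0 = B

/-- HSD: the radial function of a solution (no hypotheses).  `f(r) = (s r)^(-(d-1)/2) y(s r)` satisfies
`f'' + (d-1) f'/r + s² f = 0`; `g(t) = f(√t)`: `4 t g'' + 2 d g' = f'' + (d-1) f'/r`, `r = √t`. -/
def HsdStmt : Prop := ∀ (d : ℕ) (s : ℝ) (y y' : ℝ → ℝ), 2 ≤ d → 0 < s →
  ContDiffOn ℝ ((⊤ : ℕ∞) : WithTop ℕ∞) y (Ioi 0) → (∀ x, 0 < x → HasDerivAt y (y' x) x) →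
  (∀ x, 0 < x → HasDerivAt y' ((cd d / x ^ 2 - 1) * y x) x) →
  ContDiffOn ℝ ((⊤ : ℕ∞) : WithTop ℕ∞)
    (fun t => (s * Real.sqrt t) ^ (-(((d : ℝ) - 1) / 2)) * y (s * Real.sqrt t)) (Ioi 0) ∧
  ∀ t : ℝ, 0 < t → Ld d (s ^ 2)
    (fun t => (s * Real.sqrt t) ^ (-(((d : ℝ) - 1) / 2)) * y (s * Real.sqrt t)) t = 0

/-! ## Part E2: radial functions -/

/-- SYB: the ball and the shell are bounded, open, nonempty and symmetric; radial functions are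
invariant (uses MGP of BEG).  `‖g x‖ = ‖x‖`; `g` is onto (`g.symm`).  Last: `f ∘ g =ᵐ (h ∘ norm) ∘ g`
because `mv g` preserves `mu Ω` (MGP). -/
def SybStmt : Prop := (∀ (d : ℕ) (R : ℝ), 1 ≤ d → 0 < R → Dom (BB d R) ∧ Syms (BB d R) (GO d)) ∧
  (∀ (d : ℕ) (a b : ℝ), 1 ≤ d → 0 < a → a < b → Dom (Sh d a b) ∧ Syms (Sh d a b) (GO d)) ∧
  ∀ (d : ℕ) (Ω : Set (En d)) (h : ℝ → ℝ) (f : Lp ℝ 2 (mu Ω)), Dom Ω → Syms Ω (GO d) →
    (f =ᵐ[mu Ω] fun x => h ‖x‖) → Inv Ω (GO d) f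

/-- IRR: invariant functions are radial (no hypotheses).  Proof: `v` = the extension of `u` by zero to
`ℝ^d`, `v ∘ g =ᵐ v` for every linear isometry `g`, `v` locally integrable.  `A_n(x) = ⨍ v` over
`closedBall x (1/(n+1))`: `A_n (g x) = A_n x` for EVERY `x` (change of variables), `A_n` is measurable
(Fubini: `∫ v(y) 1_{dist x y ≤ r} dy`), `A_n → v` almost everywhere
(`IsUnifLocDoublingMeasure.ae_tendsto_average`).  If `‖x‖ = ‖y‖` there is a linear isometry with `g x = y`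
(reflection, `Submodule.reflection_sub`), so `A_n x = A_n (‖x‖ e)` for a fixed unit vector `e`.
`f(r) = limsup A_n(r e)` (in `EReal`, then `toReal`) is measurable and `u =ᵐ f(‖x‖)`. -/
def IrrStmt : Prop := ∀ (d : ℕ) (Ω : Set (En d)) (u : Lp ℝ 2 (mu Ω)), 1 ≤ d → Dom Ω →
  Syms Ω (GO d) → Inv Ω (GO d) u → ∃ f : ℝ → ℝ, Measurable f ∧ u =ᵐ[mu Ω] fun x => f ‖x‖

/-- RDD: invariant functions orthogonal to the powers of `|x|²` (uses IRR).  `ν` = the image of `mu Ω`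
under `x ↦ ‖x‖²`, a finite measure on `ℝ`, concentrated on some `[0, R²]`; `h(t) = f(√t)` is in `L²(ν)`,
`∫ h t^b dν = ∫ u ‖x‖^(2b) = 0`.  For a bounded continuous `ψ`: `∫ h ψ dν = 0` (Weierstrass on `[0, R²]`:
`exists_polynomial_near_of_continuousOn`).  `ψ → h` in `L²(ν)`
(`MemLp.exists_boundedContinuous_eLpNorm_sub_le`), so `∫ h² dν = 0`, `u = 0`. -/
def RddStmt : Prop := ∀ (d : ℕ) (Ω : Set (En d)) (u : Lp ℝ 2 (mu Ω)), 1 ≤ d → Dom Ω →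
  Syms Ω (GO d) → Inv Ω (GO d) u → (∀ b : ℕ, ∫ x, u x * (‖x‖ ^ 2) ^ b ∂(mu Ω) = 0) → u = 0

/-- SPB: the radial spectrum of the ball (uses JSD, SYB, RDD and, imported, `Pool.Agent.BEO.Fin.lpo`,
`.evo`, `.oro`; compare `SPD` of squad BED, first part, case `d = 2`, and `Helper10_BEO/SPO.lean` with
`H = 1`).  `μ = (x/R)²`, `LL(P) = ∫ u (lap P + μ P)`; `LL` vanishes on the multiples of `ρ - R²` (ORO), so
`LL(ρ^b) = R^(2b) LL(1)`.  `p_K = Σ_(k ≤ K) bd d k μ^k ρ^k`, `lap (ρ^(k+1)) = 2(k+1)(2k+d) ρ^k` (LPO,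
`l = 0`, `H = 1`), so `lap p_K + μ p_K = μ^(K+1) bd d K ρ^K`: `jd d x LL(1) = lim LL(p_K) = 0`, so
`LL(1) = 0`, `LL(ρ^b) = 0`, and by induction `∫ u ρ^b = 0` (`ρ^b = (lap + μ)(ρ^b/μ) -
(2b(2b-2+d)/μ) ρ^(b-1)`); RDD. -/
def SpbStmt : Prop := ∀ (d : ℕ) (R x : ℝ) (u : Lp ℝ 2 (mu (BB d R))), 2 ≤ d → 0 < R → 0 < x →
  Inv (BB d R) (GO d) u → IsEig (BB d R) ((x / R) ^ 2) u → jd d x ≠ 0 → u = 0

/-- ICE: small eigenvalues of a compact operator (no hypotheses).  `T` = the restriction of `S` to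
`K` (complete), compact, symmetric, injective, with nonnegative eigenvalues.  Suppose that all its
eigenvalues are `≥ ε`.  The span of the eigenvectors is dense
(`ContinuousLinearMap.orthogonalComplement_iSup_eigenspaces_eq_bot` or its variant for compact
symmetric operators in Mathlib, compare `fre`, `eib`, `spc` of squad BE01), so `‖T h‖ ≥ ε ‖h‖` on `K`
(orthogonality of the eigenspaces).  Then bounded sequences of `K` have convergent subsequences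
(compactness of `T`), the closed unit ball of `K` is compact, `K` is finite-dimensional. -/
def IceStmt : Prop := ∀ (H : Type) [NormedAddCommGroup H] [InnerProductSpace ℝ H]
  [CompleteSpace H] (S : H →L[ℝ] H) (K : Submodule ℝ H), IsCompactOperator S →
  (∀ h k, ⟪S h, k⟫_ℝ = ⟪h, S k⟫_ℝ) → (∀ h, 0 ≤ ⟪S h, h⟫_ℝ) → Function.Injective S →
  IsClosed (K : Set H) → (∀ h ∈ K, S h ∈ K) → ¬ FiniteDimensional ℝ K →
  ∀ ε : ℝ, 0 < ε → ∃ μ : ℝ, 0 < μ ∧ μ < ε ∧ ∃ u ∈ K, u ≠ 0 ∧ S u = μ • u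

/-- INE: arbitrarily large eigenvalues (uses WXC of BEN, ICE).  WXC with `Ω' = Ω`: `S = W.S` is compact
(`Wok.comp`), symmetric and injective (`Prp`), `⟪S h, h⟫ = ‖R h‖²`; `S h ∈ K` for `h ∈ K` (`Kst.slv`,
`Wok.dom`, `Wok.weak`).  `K` contains the functions `(‖x‖²)^b`, which are linearly independent (a linear
combination which vanishes almost everywhere on the open nonempty `Ω` vanishes on `Ω`, and `‖x‖²`
takes infinitely many values on `Ω`).  ICE with `ε = 1/max B 1`, `l = 1/μ`, `Wok.eig`. -/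
def IneStmt : Prop := ∀ (d : ℕ) (Ω : Set (En d)) (K : Submodule ℝ (Lp ℝ 2 (mu Ω))), 2 ≤ d →
  Dom Ω → Kst Ω K →
  (∀ (b : ℕ) (f : Lp ℝ 2 (mu Ω)), (f =ᵐ[mu Ω] fun x => (‖x‖ ^ 2) ^ b) → f ∈ K) →
  ∀ B : ℝ, ∃ l : ℝ, B < l ∧ ∃ u ∈ K, u ≠ 0 ∧ IsEig Ω l u

/-- BLB: EVERY BALL (uses KSY of BEG, FRG, YAS, NRA, GPA, JSD, SYB, SPB, INE).  `Z = {x > 0 | jd d x =
0}`; `Zas (cd d) β Z` by JSD and YAS (`x^((d-1)/2) jd d x`), `cd d ≠ 0`.  `X` = the maximum of the `X1` of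
NRA for `n = 3, …, 2p+1` and of `1`.  INE for `K` = the invariant functions (KSY; SYB for `‖x‖^(2b)`):
an eigenvalue `l > (X/R)²` with `u ∈ K`; `x = R √l`, `l = (x/R)²`, `x ∈ Z` by SPB.  `n² l = (n x/R)²`,
and `n x ∉ Z` implies that there is no eigenfunction in `K` (SPB).  Gaps: let `N` be from GPA for
`x`; for `J` let `M = max J N`; if some odd `n1 ∈ (M, M+2p]` has `n1 x ∈ Z` take `n1` in place of `M`:
for odd `n ∈ (n1, n1+2p]`, `n = n1 + 2j`, `1 ≤ j ≤ p`, `n x ∉ Z`. -/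
def BlbStmt : Prop := ∀ (d p : ℕ) (R a : ℝ), 2 ≤ d → d ≠ 3 → 1 ≤ p → 0 < R → 0 < a →
  Rt (BB d R) a ((2 * p : ℕ) : ℝ)

/-! ## Part E3: shells -/

/-- RWD: the Laplacian of a radial function (no hypotheses; this is the row RWK of squad BEK for
general `d`: `div (2 g' y) = 2 d g' + 4 ‖y‖² g''`).  Divergence theorem for the smooth field
`ψ(y) 2 g'(‖y‖²) y`, compactly supported in `Sh d a b` (`Helper22_BEH/HFG.lean`). -/
def RwdStmt : Prop := ∀ (d : ℕ) (a b : ℝ) (g : ℝ → ℝ) (ψ : En d → ℝ), 1 ≤ d → 0 < a → a < b →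
  ContDiffOn ℝ ((⊤ : ℕ∞) : WithTop ℕ∞) g (Ioi 0) → Tst (Sh d a b) ψ →
  ∫ x, ⟪gradient ψ x, gradient (fun y => g (‖y‖ ^ 2)) x⟫_ℝ ∂(mu (Sh d a b)) =
    - ∫ x, ψ x * Ld d 0 g (‖x‖ ^ 2) ∂(mu (Sh d a b))

/-- RHD: radial functions in `H^1_0` (uses `Pool.Agent.BES.GcfStmt`; this is the row RHK of squad BEK
for general `d`).  `δ = (‖y‖² - a²)(b² - ‖y‖²)`. -/
def RhdStmt : Prop := ∀ (d : ℕ) (a b : ℝ) (g : ℝ → ℝ), 1 ≤ d → 0 < a → a < b →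
  ContDiffOn ℝ ((⊤ : ℕ∞) : WithTop ℕ∞) g (Ioi 0) → g (a ^ 2) = 0 → g (b ^ 2) = 0 →
  ∃ (f : Lp ℝ 2 (mu (Sh d a b))) (G : Lp (En d) 2 (mu (Sh d a b))), (f, G) ∈ H10 (Sh d a b) ∧
    f =ᵐ[mu (Sh d a b)] (fun x => g (‖x‖ ^ 2)) ∧
    G =ᵐ[mu (Sh d a b)] gradient (fun y => g (‖y‖ ^ 2))

/-- OKD: an eigenfunction is orthogonal to `(Δ + l) g(|y|²)` (uses SYB, RWD, RHD,
`Pool.Agent.BEO.WeoStmt`; this is the row ORK of squad BEK for general `d`). -/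
def OkdStmt : Prop := ∀ (d : ℕ) (a b l : ℝ) (g : ℝ → ℝ) (u : Lp ℝ 2 (mu (Sh d a b))), 1 ≤ d →
  0 < a → a < b → ContDiffOn ℝ ((⊤ : ℕ∞) : WithTop ℕ∞) g (Ioi 0) → g (a ^ 2) = 0 →
  g (b ^ 2) = 0 → IsEig (Sh d a b) l u →
  ∫ x, u x * Ld d l g (‖x‖ ^ 2) ∂(mu (Sh d a b)) = 0

/-- SPH: the radial spectrum of the shell (uses LOB, HSD, SYB, RDD, OKD).  `y1` with `y1(sa) = 0`,
`y1'(sa) = 1` and `y2` with `y2(sb) = 0`, `y2'(sb) = 1` (LOB); both are not identically zero.  If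
`y1(sb) = 0` or `y2(sa) = 0` we are done.  Otherwise let `g1, g2` be their radial functions (HSD):
`g1(a²) = 0 ≠ g1(b²)`, `g2(b²) = 0 ≠ g2(a²)`, `Ld d s² g_i = 0` on `(0, ∞)`.  Polynomials `w_j` with
`Ld d s² w_j t = t^j`: `w_0 = 1/s²`, `w_j = (t^j - (4j(j-1) + 2dj) w_(j-1))/s²`.  `g = w_j + α g1 + β g2`
vanishes at `a²` and `b²` for suitable `α, β`; OKD: `∫ u ‖x‖^(2j) = 0` for all `j`, and `u = 0` by RDD:
contradiction. -/
def SphStmt : Prop := ∀ (d : ℕ) (a b s : ℝ) (u : Lp ℝ 2 (mu (Sh d a b))), 2 ≤ d → 0 < a →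
  a < b → 0 < s → Inv (Sh d a b) (GO d) u → IsEig (Sh d a b) (s ^ 2) u → u ≠ 0 →
  ∃ y y' : ℝ → ℝ, Bes (cd d) y y' ∧ y (s * a) = 0 ∧ y (s * b) = 0

/-- SHB: EVERY SHELL (uses KSY of BEG, FRG, YAS, NRA, GPA, SYB, INE, SPH).  `L = b - a`,
`Z = {x > 0 | ∃ y y', Bes (cd d) y y' ∧ y(xa/L) = 0 ∧ y(xb/L) = 0}`.  For `x ∈ Z`, `s = x/L` large, YAS
(constants independent of `y`) at `sa` and `sb` and subtraction: `|sL - kπ + (c/(2s))(1/b - 1/a)| ≤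
2C/(sa)²`, i.e. `Zas (- c L²/(ab)) 0 Z`.  The rest as in BLB, with SPH in place of SPB (`n² l =
(n s)²`). -/
def ShbStmt : Prop := ∀ (d p : ℕ) (a b A : ℝ), 2 ≤ d → d ≠ 3 → 1 ≤ p → 0 < a → a < b → 0 < A →
  Rt (Sh d a b) A ((2 * p : ℕ) : ℝ)

end

end Pool.Agent.BER
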